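import Mathlib

set_option autoImplicit false

/-!
# ACP: additive complements of the primes (MP_512c7d_nt). Definitions.

Aim: if `C < e^γ + 1/4` then for all large `N` every set `A` with at most `C log N` elements in
`[1, N]` misses at least `N^δ` integers of `[1, N]` (misses: they are not `prime + a`, `a ∈ A`).
-/

open Finset

namespace Pool.Agent.ACP

/-! ## Definitions of the main statement -/

/-- `A` is an additive complement of the primes. -/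
def AddCompl (A : Set ℕ) : Prop :=
  ∃ n₀ : ℕ, ∀ n ≥ n₀, ∃ p a : ℕ, p.Prime ∧ a ∈ A ∧ n = p + a

/-- Number of elements of `A` in `[1, N]`. -/
noncomputable def cnt (A : Set ℕ) (N : ℕ) : ℕ := {a : ℕ | a ∈ A ∧ 1 ≤ a ∧ a ≤ N}.ncard

/-- Number of integers in `[1, N]` which are not of the form `p + a`, `p` prime, `a ∈ A`. -/
noncomputable def mis (A : Set ℕ) (N : ℕ) : ℕ :=
  {n : ℕ | 1 ≤ n ∧ n ≤ N ∧ ∀ p a : ℕ, p.Prime → a ∈ A → n ≠ p + a}.ncard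

/-! ## The product of Mertens -/

/-- The primes up to `y`. -/
def pr (y : ℕ) : Finset ℕ := (Icc 1 y).filter Nat.Prime

/-- `V y = ∏_{p ≤ y} (1 - 1/p)`. -/
noncomputable def V (y : ℕ) : ℝ := ∏ p ∈ pr y, (1 - 1 / (p : ℝ))

/-- `-log (1 - 1/p)`. -/
noncomputable def gp (p : ℕ) : ℝ := -Real.log (1 - 1 / (p : ℝ))

/-- `G y = ∑_{p ≤ y} -log (1 - 1/p)`. -/
noncomputable def G (y : ℕ) : ℝ := ∑ p ∈ pr y, gp p

/-- Product of the primes up to `y`. -/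
def W (y : ℕ) : ℕ := ∏ p ∈ pr y, p

/-! ## Type I sums in residue classes -/

/-- `∑_{d ≤ D} c_d #{m ≤ N/d : d m = b (mod Q)}`. -/
noncomputable def TT (Q N D : ℕ) (c : ℕ → ℝ) (b : ZMod Q) : ℝ :=
  ∑ d ∈ Icc 1 D, c d * (((Icc 1 (N / d)).filter fun m => ((d * m : ℕ) : ZMod Q) = b).card : ℝ)

/-- `min (N/d) (Q/|r|)` -/
noncomputable def w (Q N d : ℕ) (r : ℤ) : ℝ := min ((N : ℝ) / d) ((Q : ℝ) / |(r : ℝ)|)

/-- The nonzero integers of absolute value at most `Q`. -/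
noncomputable def Rr (Q : ℕ) : Finset ℤ := (Icc (-(Q : ℤ)) Q).erase 0

/-- Quadruples `((d₁, r₁), (d₂, r₂))` with `Q ∣ d₁ r₂ - d₂ r₁`. -/
noncomputable def ZZ (Q D : ℕ) : Finset ((ℕ × ℤ) × (ℕ × ℤ)) :=
  ((Icc 1 D ×ˢ Rr Q) ×ˢ (Icc 1 D ×ˢ Rr Q)).filter fun x =>
    (Q : ℤ) ∣ (x.1.1 : ℤ) * x.2.2 - (x.2.1 : ℤ) * x.1.2

/-! ## Selberg's sum -/

open Classical in
/-- `μ(m)^2/φ(m)`. -/
noncomputable def f2 (m : ℕ) : ℝ := if Squarefree m then 1 / (Nat.totient m : ℝ) else 0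

/-- `∑_{m ≤ R, (m, Q) = 1} μ(m)^2/φ(m)`. -/
noncomputable def LQ (Q R : ℕ) : ℝ := ∑ m ∈ (Icc 1 R).filter (fun m => m.Coprime Q), f2 m

/-- Number of divisors, as a real number. -/
noncomputable def tau (n : ℕ) : ℝ := (n.divisors.card : ℝ)

end Pool.Agent.ACP
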