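import Pool.Agent.ACP.Targets

set_option autoImplicit false

/-!
# ACP: greedy classes modulo the small primes
-/

open Finset

namespace Pool.Agent.ACP

namespace GR1_

/-- One class modulo `q` contains at least the fraction `1/q` of a finite set. -/
theorem cls (S : Finset ℕ) (q : ℕ) (hq : 0 < q) :
    ∃ c : ℕ, ((S.filter fun a => ¬ a ≡ c [MOD q]).card : ℝ) ≤ S.card * (1 - 1 / (q : ℝ)) := by
  have hq' : (0 : ℝ) < q := by exact_mod_cast hq
  obtain ⟨c, hc, h⟩ := Finset.exists_le_card_fiber_of_nsmul_le_card_of_maps_to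
    (s := S) (t := Finset.range q) (f := fun a => a % q) (b := (S.card : ℝ) / q)
    (fun a _ => Finset.mem_range.mpr (Nat.mod_lt _ hq)) ⟨0, Finset.mem_range.mpr hq⟩
    (by
      rw [Finset.card_range, nsmul_eq_mul]
      exact le_of_eq (mul_div_cancel₀ _ hq'.ne'))
  refine ⟨c, ?_⟩
  have hcq : c < q := Finset.mem_range.mp hc
  have h1 : (S.filter fun a => a ≡ c [MOD q]) = S.filter fun a => a % q = c := by
    refine Finset.filter_congr fun a _ => ?_
    unfold Nat.ModEq
    rw [Nat.mod_eq_of_lt hcq]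
  have h2 := Finset.card_filter_add_card_filter_not (s := S) (fun a => a ≡ c [MOD q])
  have h3 : ((S.filter fun a => a ≡ c [MOD q]).card : ℝ) +
      ((S.filter fun a => ¬ a ≡ c [MOD q]).card : ℝ) = S.card := by exact_mod_cast h2
  rw [h1] at h3
  have h4 : (S.card : ℝ) * (1 - 1 / (q : ℝ)) = S.card - S.card / q := by ring
  rw [h4]
  linarith

theorem gen (S T : Finset ℕ) : (∀ p ∈ T, 0 < p) → ∃ r : ℕ → ℕ,
    ((S.filter fun a => ∀ p ∈ T, ¬ a ≡ r p [MOD p]).card : ℝ) ≤
      S.card * ∏ p ∈ T, (1 - 1 / (p : ℝ)) := by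
  induction T using Finset.induction_on with
  | empty =>
    intro _
    exact ⟨fun _ => 0, by simp⟩
  | insert q T hqT ih =>
    intro hT
    obtain ⟨r, hr⟩ := ih fun p hp => hT p (Finset.mem_insert_of_mem hp)
    have hq := hT q (Finset.mem_insert_self q T)
    obtain ⟨c, hc⟩ := cls (S.filter fun a => ∀ p ∈ T, ¬ a ≡ r p [MOD p]) q hq
    refine ⟨Function.update r q c, ?_⟩
    have hsub : (S.filter fun a => ∀ p ∈ insert q T, ¬ a ≡ Function.update r q c p [MOD p]) ⊆
        (S.filter fun a => ∀ p ∈ T, ¬ a ≡ r p [MOD p]).filter fun a => ¬ a ≡ c [MOD q] := by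
      intro a ha
      rw [Finset.mem_filter] at ha
      rw [Finset.mem_filter, Finset.mem_filter]
      refine ⟨⟨ha.1, fun p hp => ?_⟩, ?_⟩
      · have h1 := ha.2 p (Finset.mem_insert_of_mem hp)
        have h2 : p ≠ q := fun h => hqT (h ▸ hp)
        rwa [Function.update_of_ne h2] at h1
      · have h1 := ha.2 q (Finset.mem_insert_self q T)
        rwa [Function.update_self] at h1
    have hcard : ((S.filter fun a => ∀ p ∈ insert q T,
        ¬ a ≡ Function.update r q c p [MOD p]).card : ℝ) ≤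
        (((S.filter fun a => ∀ p ∈ T, ¬ a ≡ r p [MOD p]).filter
          fun a => ¬ a ≡ c [MOD q]).card : ℝ) := by
      exact_mod_cast Finset.card_le_card hsub
    have hq1 : (0 : ℝ) ≤ 1 - 1 / (q : ℝ) := by
      have h1 : (1 : ℝ) ≤ q := by exact_mod_cast hq
      have h2 : 1 / (q : ℝ) ≤ 1 := by
        rw [div_le_one (by linarith)]
        exact h1
      linarith
    rw [Finset.prod_insert hqT]
    calc ((S.filter fun a => ∀ p ∈ insert q T,
        ¬ a ≡ Function.update r q c p [MOD p]).card : ℝ)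
        ≤ ((S.filter fun a => ∀ p ∈ T, ¬ a ≡ r p [MOD p]).card : ℝ) * (1 - 1 / (q : ℝ)) :=
          hcard.trans hc
      _ ≤ (S.card * ∏ p ∈ T, (1 - 1 / (p : ℝ))) * (1 - 1 / (q : ℝ)) :=
          mul_le_mul_of_nonneg_right hr hq1
      _ = S.card * ((1 - 1 / (q : ℝ)) * ∏ p ∈ T, (1 - 1 / (p : ℝ))) := by ring

end GR1_

theorem p_GR1 : T_GR1 := by
  intro S y
  refine GR1_.gen S (pr y) fun p hp => ?_
  unfold pr at hp
  rw [Finset.mem_filter, Finset.mem_Icc] at hp
  exact hp.1.1

end Pool.Agent.ACP
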