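import Pool.Agent.ACP.Targets

/-!
# ACP: target LQ, the sum of `μ(m)^2/φ(m)` with a coprimality condition
-/

set_option autoImplicit false

open Finset

namespace Pool.Agent.ACP

namespace LQ_

theorem f2_of_sq {m : ℕ} (h : Squarefree m) : f2 m = 1 / (Nat.totient m : ℝ) := if_pos h

theorem f2_of_not {m : ℕ} (h : ¬ Squarefree m) : f2 m = 0 := if_neg h

theorem f2_nonneg (m : ℕ) : 0 ≤ f2 m := by
  by_cases h : Squarefree m
  · rw [f2_of_sq h]
    positivity
  · rw [f2_of_not h]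

theorem f2_mul {a b : ℕ} (h : a.Coprime b) : f2 (a * b) = f2 a * f2 b := by
  by_cases ha : Squarefree a
  · by_cases hb : Squarefree b
    · rw [f2_of_sq ha, f2_of_sq hb, f2_of_sq ((Nat.squarefree_mul h).2 ⟨ha, hb⟩),
        Nat.totient_mul h]
      push_cast
      rw [div_mul_div_comm, one_mul]
    · rw [f2_of_not hb, mul_zero, f2_of_not fun hh => hb ((Nat.squarefree_mul h).1 hh).2]
  · rw [f2_of_not ha, zero_mul, f2_of_not fun hh => ha ((Nat.squarefree_mul h).1 hh).1]

/-- `f2` as an arithmetic function. -/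
noncomputable def ff : ArithmeticFunction ℝ := ⟨f2, f2_of_not (by simp)⟩

/-- `n/φ(n)` as an arithmetic function. -/
noncomputable def gg : ArithmeticFunction ℝ := ⟨fun n => (n : ℝ) / (Nat.totient n : ℝ), by simp⟩

theorem ff_mul : ff.IsMultiplicative := by
  refine ⟨?_, fun {a b} h => f2_mul h⟩
  change f2 1 = 1
  rw [f2_of_sq squarefree_one]
  simp

theorem gg_mul : gg.IsMultiplicative := by
  refine ⟨?_, fun {a b} h => ?_⟩
  · change ((1 : ℕ) : ℝ) / (Nat.totient 1 : ℝ) = 1
    simp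
  · change ((a * b : ℕ) : ℝ) / (Nat.totient (a * b) : ℝ) =
      (a : ℝ) / (Nat.totient a : ℝ) * ((b : ℝ) / (Nat.totient b : ℝ))
    rw [Nat.totient_mul h]
    push_cast
    rw [div_mul_div_comm]

theorem key : ((ArithmeticFunction.zeta : ArithmeticFunction ℝ) * ff) = gg := by
  have hz : ((ArithmeticFunction.zeta : ArithmeticFunction ℝ) * ff).IsMultiplicative :=
    ArithmeticFunction.isMultiplicative_zeta.natCast.mul ff_mul
  rw [ArithmeticFunction.IsMultiplicative.eq_iff_eq_on_prime_powers _ hz _ gg_mul]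
  intro p i hp
  rw [ArithmeticFunction.coe_zeta_mul_apply, Nat.sum_divisors_prime_pow hp]
  change ∑ x ∈ range (i + 1), f2 (p ^ x) = ((p ^ i : ℕ) : ℝ) / (Nat.totient (p ^ i) : ℝ)
  rcases i with _ | i
  · simp [f2_of_sq squarefree_one]
  · rw [Finset.sum_range_succ', Finset.sum_range_succ']
    have h0 : ∑ x ∈ range i, f2 (p ^ (x + 1 + 1)) = 0 := by
      refine Finset.sum_eq_zero fun x _ => f2_of_not fun h => ?_
      have h1 : p * p ∣ p ^ (x + 1 + 1) := by
        rw [pow_succ, pow_succ, mul_assoc]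
        exact dvd_mul_left _ _
      have h2 := h p h1
      rw [Nat.isUnit_iff] at h2
      exact hp.one_lt.ne' h2
    rw [h0, zero_add, zero_add, pow_one, pow_zero, f2_of_sq hp.prime.squarefree,
      f2_of_sq squarefree_one, Nat.totient_one, Nat.totient_prime hp,
      Nat.totient_prime_pow_succ hp]
    have h1 : (1 : ℝ) < p := by exact_mod_cast hp.one_lt
    have h2 : (0 : ℝ) < (p : ℝ) - 1 := by linarith
    have h3 : ((p - 1 : ℕ) : ℝ) = (p : ℝ) - 1 := by
      rw [Nat.cast_sub hp.one_le, Nat.cast_one]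
    push_cast
    rw [h3]
    have h4 : (p : ℝ) ^ i ≠ 0 := pow_ne_zero _ (by linarith)
    field_simp
    ring

theorem sumdiv (Q : ℕ) : ∑ a ∈ Q.divisors, f2 a = (Q : ℝ) / (Nat.totient Q : ℝ) := by
  have h := congrArg (fun f : ArithmeticFunction ℝ => f Q) key
  simp only [ArithmeticFunction.coe_zeta_mul_apply] at h
  exact h

end LQ_

open LQ_ in
theorem p_LQ : T_LQ := by
  intro Q R hQ
  classical
  set S : Finset ℕ := (Icc 1 R).filter Squarefree with hS
  set B : Finset ℕ := (Icc 1 R).filter (fun m => m.Coprime Q) with hB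
  have e1 : LQ 1 R = ∑ m ∈ S, f2 m := by
    unfold LQ
    have h1 : (Icc 1 R).filter (fun m => m.Coprime 1) = Icc 1 R :=
      Finset.filter_true_of_mem fun m _ => Nat.coprime_one_right m
    rw [h1, hS, Finset.sum_filter]
    refine Finset.sum_congr rfl fun m _ => ?_
    by_cases h : Squarefree m
    · rw [if_pos h]
    · rw [if_neg h, f2_of_not h]
  have hdec : ∀ m ∈ S, m.gcd Q * (m / m.gcd Q) = m ∧ (m.gcd Q).Coprime (m / m.gcd Q) ∧
      (m / m.gcd Q).Coprime Q := by
    intro m hm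
    rw [hS, Finset.mem_filter, Finset.mem_Icc] at hm
    have h1 : m.gcd Q * (m / m.gcd Q) = m := Nat.mul_div_cancel' (Nat.gcd_dvd_left m Q)
    have h2 : (m.gcd Q).Coprime (m / m.gcd Q) := by
      refine Nat.coprime_of_squarefree_mul ?_
      rw [h1]
      exact hm.2
    refine ⟨h1, h2, ?_⟩
    have h3 : ((m / m.gcd Q).gcd Q) ∣ m.gcd Q :=
      Nat.dvd_gcd ((Nat.gcd_dvd_left _ _).trans (Nat.div_dvd_of_dvd (Nat.gcd_dvd_left m Q)))
        (Nat.gcd_dvd_right _ _)
    have h4 : ((m / m.gcd Q).gcd Q) ∣ (m.gcd Q).gcd (m / m.gcd Q) :=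
      Nat.dvd_gcd h3 (Nat.gcd_dvd_left _ _)
    rw [h2.gcd_eq_one] at h4
    exact Nat.dvd_one.1 h4
  have e2 : ∑ m ∈ S, f2 m ≤ ∑ x ∈ Q.divisors ×ˢ B, f2 x.1 * f2 x.2 := by
    have hinj : Set.InjOn (fun m : ℕ => (m.gcd Q, m / m.gcd Q)) S := by
      intro m hm m' hm' h
      rw [Prod.mk.injEq] at h
      have q1 := (hdec m hm).1
      rw [h.2, h.1, (hdec m' hm').1] at q1
      exact q1.symm
    calc ∑ m ∈ S, f2 m = ∑ m ∈ S, f2 (m.gcd Q) * f2 (m / m.gcd Q) := by
          refine Finset.sum_congr rfl fun m hm => ?_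
          rw [← f2_mul (hdec m hm).2.1, (hdec m hm).1]
      _ = ∑ x ∈ S.image (fun m : ℕ => (m.gcd Q, m / m.gcd Q)), f2 x.1 * f2 x.2 := by
          rw [Finset.sum_image hinj]
      _ ≤ ∑ x ∈ Q.divisors ×ˢ B, f2 x.1 * f2 x.2 := by
          refine Finset.sum_le_sum_of_subset_of_nonneg ?_
            (fun x _ _ => mul_nonneg (f2_nonneg _) (f2_nonneg _))
          intro x hx
          rw [Finset.mem_image] at hx
          obtain ⟨m, hm, rfl⟩ := hx
          have hm' := hm
          rw [hS, Finset.mem_filter, Finset.mem_Icc] at hm'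
          rw [Finset.mem_product, Nat.mem_divisors, hB, Finset.mem_filter, Finset.mem_Icc]
          have hg : 0 < m.gcd Q := Nat.gcd_pos_of_pos_left _ (by omega)
          refine ⟨⟨Nat.gcd_dvd_right m Q, by omega⟩, ⟨?_, ?_⟩, (hdec m hm).2.2⟩
          · exact Nat.div_pos (Nat.le_of_dvd (by omega) (Nat.gcd_dvd_left m Q)) hg
          · exact (Nat.div_le_self _ _).trans hm'.1.2
  rw [e1]
  refine e2.trans (le_of_eq ?_)
  rw [Finset.sum_product, ← sumdiv Q, Finset.sum_mul]
  refine Finset.sum_congr rfl fun a _ => ?_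
  unfold LQ
  rw [Finset.mul_sum]

end Pool.Agent.ACP
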