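import Pool.Agent.ACP.Targets

set_option autoImplicit false

open Finset

namespace Pool.Agent.ACP

namespace LS_

/-- integers up to `N` with the given set of prime factors -/
def T (P : Finset ℕ) (N : ℕ) : Finset ℕ := (Icc 1 N).filter fun n => n.primeFactors = P

theorem geo (x : ℝ) (h1 : x < 1) (N : ℕ) :
    ∑ k ∈ Icc 1 N, x ^ k = (x - x ^ (N + 1)) / (1 - x) := by
  have h : 1 - x ≠ 0 := by linarith
  induction N with
  | zero => simp
  | succ N ih =>
    rw [Finset.sum_Icc_succ_top (by omega), ih, div_add' _ _ _ h]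
    congr 1
    ring

theorem geo_le (p : ℕ) (hp : 2 ≤ p) (N : ℕ) :
    ∑ k ∈ Icc 1 N, (1 / (p : ℝ)) ^ k ≤ 1 / ((p : ℝ) - 1) := by
  have hp' : (2 : ℝ) ≤ p := by exact_mod_cast hp
  have h1 : (1 : ℝ) / p < 1 := by rw [div_lt_one (by linarith)]; linarith
  rw [geo _ h1]
  have h2 : 0 ≤ (1 / (p : ℝ)) ^ (N + 1) := by positivity
  have h3 : (0 : ℝ) < 1 - 1 / p := by linarith
  have h4 : 1 / ((p : ℝ) - 1) = (1 / p) / (1 - 1 / p) := by
    have : (p : ℝ) ≠ 0 := by linarith
    have h5 : (p : ℝ) - 1 ≠ 0 := by linarith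
    field_simp
  rw [h4]
  gcongr
  linarith

theorem main (P : Finset ℕ) (hP : ∀ p ∈ P, p.Prime) (N : ℕ) :
    ∑ n ∈ T P N, 1 / (n : ℝ) ≤ ∏ p ∈ P, 1 / ((p : ℝ) - 1) := by
  induction P using Finset.induction_on with
  | empty =>
    rw [Finset.prod_empty]
    have h : T ∅ N ⊆ {1} := by
      intro n hn
      simp only [T, mem_filter, mem_Icc, Nat.primeFactors_eq_empty] at hn
      rw [Finset.mem_singleton]
      omega
    calc ∑ n ∈ T ∅ N, 1 / (n : ℝ) ≤ ∑ n ∈ ({1} : Finset ℕ), 1 / (n : ℝ) :=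
          Finset.sum_le_sum_of_subset_of_nonneg h (fun _ _ _ => by positivity)
      _ = 1 := by simp
  | insert p P hp ih =>
    have hpp : p.Prime := hP p (Finset.mem_insert_self _ _)
    have ih' := ih (fun q hq => hP q (Finset.mem_insert_of_mem hq))
    rw [Finset.prod_insert hp]
    set g : ℕ → ℕ × ℕ := fun n => (n.factorization p, ordCompl[p] n) with hg
    set F : ℕ × ℕ → ℝ := fun x => (1 / (p : ℝ)) ^ x.1 * (1 / (x.2 : ℝ)) with hF
    have hval : ∀ n ∈ T (insert p P) N, 1 / (n : ℝ) = F (g n) := by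
      intro n _
      have h := Nat.ordProj_mul_ordCompl_eq_self n p
      rw [hF, hg]
      simp only
      rw [one_div_pow, one_div_mul_one_div]
      congr 1
      exact_mod_cast h.symm
    have hinj : Set.InjOn g (T (insert p P) N) := by
      intro n _ m _ h
      rw [hg] at h
      simp only [Prod.mk.injEq] at h
      have e1 := Nat.ordProj_mul_ordCompl_eq_self n p
      have e2 := Nat.ordProj_mul_ordCompl_eq_self m p
      rw [h.2, h.1] at e1
      exact e1.symm.trans e2
    have hsub : (T (insert p P) N).image g ⊆ (Icc 1 N) ×ˢ T P N := by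
      intro x hx
      rw [Finset.mem_image] at hx
      obtain ⟨n, hn, rfl⟩ := hx
      simp only [T, mem_filter, mem_Icc] at hn
      obtain ⟨⟨hn1, hn2⟩, hn3⟩ := hn
      have hn0 : n ≠ 0 := by omega
      have hpn : p ∣ n := Nat.dvd_of_mem_primeFactors (by rw [hn3]; exact mem_insert_self _ _)
      simp only [T, mem_product, mem_filter, mem_Icc, hg]
      refine ⟨⟨?_, ?_⟩, ⟨?_, ?_⟩, ?_⟩
      · exact (hpp.dvd_iff_one_le_factorization hn0).1 hpn
      · exact (Nat.factorization_lt p hn0).le.trans hn2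
      · exact Nat.ordCompl_pos p hn0
      · exact (Nat.div_le_self _ _).trans hn2
      · rw [← Nat.support_factorization, Nat.factorization_ordCompl, Finsupp.support_erase,
          Nat.support_factorization, hn3, Finset.erase_insert hp]
    calc ∑ n ∈ T (insert p P) N, 1 / (n : ℝ) = ∑ n ∈ T (insert p P) N, F (g n) :=
          Finset.sum_congr rfl hval
      _ = ∑ x ∈ (T (insert p P) N).image g, F x := (Finset.sum_image hinj).symm
      _ ≤ ∑ x ∈ (Icc 1 N) ×ˢ T P N, F x :=
          Finset.sum_le_sum_of_subset_of_nonneg hsub (fun _ _ _ => by positivity)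
      _ = (∑ k ∈ Icc 1 N, (1 / (p : ℝ)) ^ k) * ∑ n ∈ T P N, 1 / (n : ℝ) := by
          rw [Finset.sum_product, Finset.sum_mul_sum]
      _ ≤ 1 / ((p : ℝ) - 1) * ∏ q ∈ P, 1 / ((q : ℝ) - 1) := by
          have h2 : (2 : ℝ) ≤ p := by exact_mod_cast hpp.two_le
          refine mul_le_mul (geo_le p hpp.two_le N) ih' ?_ ?_
          · exact Finset.sum_nonneg fun _ _ => by positivity
          · apply div_nonneg zero_le_one; linarith

theorem f2_eq (m : ℕ) (hm : Squarefree m) :
    f2 m = ∏ p ∈ m.primeFactors, 1 / ((p : ℝ) - 1) := by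
  unfold f2
  rw [if_pos hm]
  have h1 := Nat.totient_mul_prod_primeFactors m
  rw [Nat.prod_primeFactors_of_squarefree hm] at h1
  have hm0 : 0 < m := Nat.pos_of_ne_zero hm.ne_zero
  have h2 : Nat.totient m = ∏ p ∈ m.primeFactors, (p - 1) := by
    rw [mul_comm] at h1
    exact Nat.eq_of_mul_eq_mul_left hm0 h1
  rw [h2, Nat.cast_prod, Finset.prod_div_distrib, Finset.prod_const_one]
  congr 1
  refine Finset.prod_congr rfl fun p hp => ?_
  rw [Nat.cast_sub (Nat.prime_of_mem_primeFactors hp).one_le, Nat.cast_one]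

end LS_

open LS_ in
theorem p_LS : T_LS := by
  intro R hR
  have hR' : (1 : ℝ) ≤ R := by exact_mod_cast hR
  have h1 : Real.log R ≤ ∑ n ∈ Icc 1 R, 1 / (n : ℝ) := by
    have h2 := log_add_one_le_harmonic R
    rw [harmonic_eq_sum_Icc] at h2
    push_cast at h2
    refine (Real.log_le_log (by linarith) (by linarith : (R : ℝ) ≤ R + 1)).trans (h2.trans ?_)
    refine le_of_eq (Finset.sum_congr rfl fun n _ => ?_)
    rw [one_div]
  refine h1.trans ?_
  set rad : ℕ → ℕ := fun n => ∏ p ∈ n.primeFactors, p with hrad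
  have hmaps : ∀ n ∈ Icc 1 R, rad n ∈ (Icc 1 R).filter (fun m => Squarefree m) := by
    intro n hn
    rw [mem_Icc] at hn
    have hd : rad n ∣ n := Nat.prod_primeFactors_dvd n
    rw [mem_filter, mem_Icc]
    refine ⟨⟨Nat.pos_of_dvd_of_pos hd hn.1, (Nat.le_of_dvd hn.1 hd).trans hn.2⟩, ?_⟩
    rw [hrad]
    exact Finset.squarefree_prod_of_pairwise_isCoprime
      (fun p hp q hq hpq => Nat.coprime_iff_isRelPrime.1
        ((Nat.coprime_primes (Nat.prime_of_mem_primeFactors hp)
        (Nat.prime_of_mem_primeFactors hq)).2 hpq))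
      (fun p hp => (Nat.prime_of_mem_primeFactors hp).squarefree)
  rw [← Finset.sum_fiberwise_of_maps_to hmaps]
  have hLQ : LQ 1 R = ∑ m ∈ (Icc 1 R).filter (fun m => Squarefree m), f2 m := by
    unfold LQ
    rw [Finset.sum_filter, Finset.sum_filter]
    refine Finset.sum_congr rfl fun m _ => ?_
    rw [if_pos (Nat.coprime_one_right m)]
    by_cases hm : Squarefree m
    · rw [if_pos hm]
    · rw [if_neg hm, f2, if_neg hm]
  rw [hLQ]
  refine Finset.sum_le_sum fun m hm => ?_
  rw [mem_filter] at hm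
  rw [f2_eq m hm.2]
  refine le_trans ?_ (main m.primeFactors (fun p hp => Nat.prime_of_mem_primeFactors hp) R)
  refine Finset.sum_le_sum_of_subset_of_nonneg ?_ (fun _ _ _ => by positivity)
  intro n hn
  rw [mem_filter] at hn
  rw [T, mem_filter]
  refine ⟨hn.1, ?_⟩
  rw [← hn.2, hrad]
  exact (Nat.primeFactors_prod (fun p hp => Nat.prime_of_mem_primeFactors hp)).symm

end Pool.Agent.ACP
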