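import Pool.Agent.ACP.Targets

set_option autoImplicit false

/-!
# ACP: proof of the target M1 (first theorem of Mertens) (helper21)
-/

open Finset

namespace Pool.Agent.ACP

namespace M1_

theorem mem_pr {n p : ℕ} : p ∈ pr n ↔ (1 ≤ p ∧ p ≤ n) ∧ p.Prime := by
  unfold pr
  rw [Finset.mem_filter, Finset.mem_Icc]

/-! ### The upper bound -/

theorem sum_log_le (N : ℕ) : ∑ n ∈ Finset.Ioc 0 N, Real.log n ≤ N * Real.log N := by
  calc ∑ n ∈ Finset.Ioc 0 N, Real.log n ≤ ∑ n ∈ Finset.Ioc 0 N, Real.log N := by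
        apply Finset.sum_le_sum
        intro n hn
        rw [Finset.mem_Ioc] at hn
        apply Real.log_le_log
        · exact_mod_cast hn.1
        · exact_mod_cast hn.2
    _ = N * Real.log N := by simp

theorem sum_log_primeFactors_le (n : ℕ) (hn : 0 < n) :
    ∑ p ∈ n.primeFactors, Real.log p ≤ Real.log n := by
  rw [← Real.log_prod (fun p hp => by
    have := (Nat.prime_of_mem_primeFactors hp).pos
    positivity)]
  have h := Nat.le_of_dvd hn (Nat.prod_primeFactors_dvd n)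
  have hpos : 0 < ∏ p ∈ n.primeFactors, p :=
    Finset.prod_pos fun p hp => (Nat.prime_of_mem_primeFactors hp).pos
  rw [← Nat.cast_prod]
  apply Real.log_le_log
  · exact_mod_cast hpos
  · exact_mod_cast h

theorem sum_floor_le (N : ℕ) :
    ∑ p ∈ pr N, ((N / p : ℕ) : ℝ) * Real.log p ≤ N * Real.log N := by
  have h1 : ∑ p ∈ pr N, ((N / p : ℕ) : ℝ) * Real.log p =
      ∑ n ∈ Finset.Ioc 0 N, ∑ p ∈ n.primeFactors, Real.log p := by
    have h2 : ∀ n ∈ Finset.Ioc 0 N, ∑ p ∈ n.primeFactors, Real.log p =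
        ∑ p ∈ pr N, if p ∣ n then Real.log p else 0 := by
      intro n hn
      rw [Finset.mem_Ioc] at hn
      rw [← Finset.sum_filter]
      apply Finset.sum_congr _ fun _ _ => rfl
      ext p
      rw [Nat.mem_primeFactors, Finset.mem_filter, mem_pr]
      constructor
      · rintro ⟨hp, hd, _⟩
        exact ⟨⟨⟨hp.pos, (Nat.le_of_dvd hn.1 hd).trans hn.2⟩, hp⟩, hd⟩
      · rintro ⟨⟨_, hp⟩, hd⟩
        exact ⟨hp, hd, by omega⟩
    rw [Finset.sum_congr rfl h2, Finset.sum_comm]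
    apply Finset.sum_congr rfl
    intro p _
    rw [← Finset.sum_filter, Finset.sum_const, Nat.Ioc_filter_dvd_card_eq_div, nsmul_eq_mul]
  rw [h1]
  refine (Finset.sum_le_sum fun n hn => sum_log_primeFactors_le n ?_).trans (sum_log_le N)
  exact (Finset.mem_Ioc.1 hn).1

theorem theta_sum (N : ℕ) : ∑ p ∈ pr N, Real.log p ≤ Real.log 4 * N := by
  have h := Chebyshev.theta_le_log4_mul_x (x := (N : ℝ)) (Nat.cast_nonneg N)
  refine le_trans (le_of_eq ?_) h
  unfold Chebyshev.theta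
  rw [Nat.floor_natCast]
  apply Finset.sum_congr _ fun _ _ => rfl
  ext p
  rw [mem_pr, Finset.mem_filter, Finset.mem_Ioc]
  constructor
  · rintro ⟨⟨h1, h2⟩, h3⟩
    exact ⟨⟨h3.pos, h2⟩, h3⟩
  · rintro ⟨⟨h1, h2⟩, h3⟩
    exact ⟨⟨h1, h2⟩, h3⟩

theorem upper (N : ℕ) (hN1 : 1 ≤ N) :
    ∑ p ∈ pr N, Real.log p / p ≤ Real.log N + Real.log 4 := by
  have hN0 : (0 : ℝ) < N := by exact_mod_cast hN1
  have h1 : ∑ p ∈ pr N, (N * (Real.log p / p)) ≤
      ∑ p ∈ pr N, (((N / p : ℕ) : ℝ) * Real.log p + Real.log p) := by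
    apply Finset.sum_le_sum
    intro p hp
    rw [mem_pr] at hp
    have hp0 : (0 : ℝ) < p := by exact_mod_cast hp.2.pos
    have hl : 0 ≤ Real.log p := Real.log_natCast_nonneg p
    have h2 : (N : ℝ) / p ≤ ((N / p : ℕ) : ℝ) + 1 := by
      rw [div_le_iff₀ hp0]
      have := Nat.lt_div_mul_add hp.2.pos (a := N)
      have h3 : (N : ℝ) ≤ ((N / p : ℕ) : ℝ) * p + p := by
        exact_mod_cast this.le
      linarith
    calc N * (Real.log p / p) = (N : ℝ) / p * Real.log p := by ring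
      _ ≤ (((N / p : ℕ) : ℝ) + 1) * Real.log p := mul_le_mul_of_nonneg_right h2 hl
      _ = _ := by ring
  rw [Finset.sum_add_distrib, ← Finset.mul_sum] at h1
  have h2 := sum_floor_le N
  have h3 := theta_sum N
  have h4 : N * ∑ p ∈ pr N, Real.log p / p ≤ N * (Real.log N + Real.log 4) := by linarith
  exact le_of_mul_le_mul_left h4 hN0

/-! ### The lower bound -/

/-- `∑ log n / n²` converges. -/
theorem summable_log_div_sq : Summable (fun n : ℕ => Real.log n / (n : ℝ) ^ 2) := by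
  have h1 : Summable (fun n : ℕ => 2 * (1 / (n : ℝ) ^ (3 / 2 : ℝ))) :=
    (Real.summable_one_div_nat_rpow.2 (by norm_num)).mul_left 2
  refine Summable.of_nonneg_of_le (fun n => div_nonneg (Real.log_natCast_nonneg n) (by positivity))
    (fun n => ?_) h1
  rcases Nat.eq_zero_or_pos n with rfl | hn
  · simp
  have hn' : (0 : ℝ) < n := by exact_mod_cast hn
  have h2 : Real.log n ≤ 2 * (n : ℝ) ^ (1 / 2 : ℝ) := by
    have h3 := Real.log_le_sub_one_of_pos (Real.rpow_pos_of_pos hn' (1 / 2 : ℝ))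
    rw [Real.log_rpow hn'] at h3
    linarith
  have h4 : (n : ℝ) ^ (3 / 2 : ℝ) * (n : ℝ) ^ (1 / 2 : ℝ) = (n : ℝ) ^ 2 := by
    rw [← Real.rpow_add hn', ← Real.rpow_natCast]
    norm_num
  have h5 : (0 : ℝ) < (n : ℝ) ^ (3 / 2 : ℝ) := Real.rpow_pos_of_pos hn' _
  rw [← h4, div_le_iff₀ (by positivity)]
  calc Real.log n ≤ 2 * (n : ℝ) ^ (1 / 2 : ℝ) := h2
    _ = 2 * (1 / (n : ℝ) ^ (3 / 2 : ℝ)) * ((n : ℝ) ^ (3 / 2 : ℝ) * (n : ℝ) ^ (1 / 2 : ℝ)) := by
        field_simp

theorem lower : ∃ C : ℝ, 0 ≤ C ∧ ∀ N : ℕ, 1 ≤ N →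
    Real.log N - C ≤ ∑ p ∈ pr N, Real.log p / p := by
  set S := ∑' n : ℕ, Real.log n / (n : ℝ) ^ 2 with hS
  have hS0 : 0 ≤ S := tsum_nonneg (fun n => div_nonneg (Real.log_natCast_nonneg n) (by positivity))
  refine ⟨1 + 2 * S, by linarith, ?_⟩
  intro N hN
  have hN' : (0 : ℝ) < N := by exact_mod_cast hN
  -- log N! ≥ N log N - N
  have h1 : (N : ℝ) * Real.log N - N ≤ Real.log (N.factorial) := by
    have h2 := Real.pow_div_factorial_le_exp (x := (N : ℝ)) hN'.le N
    have hf : (0 : ℝ) < (N.factorial : ℝ) := by exact_mod_cast Nat.factorial_pos N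
    have h3 : Real.log ((N : ℝ) ^ N / (N.factorial : ℝ)) ≤ N := by
      exact (Real.log_le_iff_le_exp (div_pos (pow_pos hN' N) hf)).2 h2
    rw [Real.log_div (pow_pos hN' N).ne' hf.ne', Real.log_pow] at h3
    linarith
  -- log N! ≤ N ∑ log p / (p - 1)
  have h2 : Real.log (N.factorial) ≤ ∑ p ∈ pr N, N * (Real.log p / ((p : ℝ) - 1)) := by
    rw [Real.log_nat_eq_sum_factorization, Finsupp.sum]
    have hsub : (N.factorial).factorization.support ⊆ pr N := by
      intro p hp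
      rw [Nat.support_factorization, Nat.mem_primeFactors] at hp
      rw [mem_pr]
      exact ⟨⟨hp.1.pos, (hp.1.dvd_factorial).1 hp.2.1⟩, hp.1⟩
    refine le_trans (Finset.sum_le_sum_of_subset_of_nonneg hsub ?_) (Finset.sum_le_sum ?_)
    · intro p _ _
      exact mul_nonneg (Nat.cast_nonneg _) (Real.log_natCast_nonneg p)
    · intro p hp
      rw [mem_pr] at hp
      have hp2' := hp.2.two_le
      have hp2 : (2 : ℝ) ≤ p := by exact_mod_cast hp2'
      have h3 := Nat.factorization_factorial_le_div_pred hp.2 N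
      have h4 : (((N.factorial).factorization p : ℕ) : ℝ) ≤ (N : ℝ) / ((p : ℝ) - 1) := by
        have h5 : (((N.factorial).factorization p : ℕ) : ℝ) ≤ ((N / (p - 1) : ℕ) : ℝ) := by
          exact_mod_cast h3
        refine le_trans h5 (le_trans Nat.cast_div_le ?_)
        rw [Nat.cast_sub (by omega)]
        simp
      calc (((N.factorial).factorization p : ℕ) : ℝ) * Real.log p
          ≤ (N : ℝ) / ((p : ℝ) - 1) * Real.log p :=
            mul_le_mul_of_nonneg_right h4 (Real.log_natCast_nonneg p)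
        _ = N * (Real.log p / ((p : ℝ) - 1)) := by ring
  have h3 : ∑ p ∈ pr N, Real.log p / ((p : ℝ) - 1) ≤ ∑ p ∈ pr N, Real.log p / p + 2 * S := by
    have h4 : ∀ p ∈ pr N, Real.log p / ((p : ℝ) - 1)
        ≤ Real.log p / p + 2 * (Real.log p / (p : ℝ) ^ 2) := by
      intro p hp
      rw [mem_pr] at hp
      have hp2 : (2 : ℝ) ≤ p := by exact_mod_cast hp.2.two_le
      have hl : 0 ≤ Real.log p := Real.log_natCast_nonneg p
      have : Real.log p / p + 2 * (Real.log p / (p : ℝ) ^ 2) - Real.log p / ((p : ℝ) - 1)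
          = Real.log p * (p - 2) / ((p : ℝ) ^ 2 * (p - 1)) := by
        have : (p : ℝ) - 1 ≠ 0 := by linarith
        have : (p : ℝ) ≠ 0 := by linarith
        field_simp
        ring
      have h6 : 0 ≤ Real.log p * (p - 2) / ((p : ℝ) ^ 2 * (p - 1)) := by
        apply div_nonneg (mul_nonneg hl (by linarith))
        exact mul_nonneg (by positivity) (by linarith)
      linarith
    refine le_trans (Finset.sum_le_sum h4) ?_
    rw [Finset.sum_add_distrib, ← Finset.mul_sum]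
    have h7 : ∑ p ∈ pr N, Real.log p / (p : ℝ) ^ 2 ≤ S :=
      summable_log_div_sq.sum_le_tsum _
        (fun n _ => div_nonneg (Real.log_natCast_nonneg n) (by positivity))
    linarith
  rw [← Finset.mul_sum] at h2
  have h4 : (N : ℝ) * Real.log N - N ≤ N * (∑ p ∈ pr N, Real.log p / p + 2 * S) :=
    le_trans h1 (le_trans h2 (mul_le_mul_of_nonneg_left h3 hN'.le))
  have h5 : (N : ℝ) * (Real.log N - 1) ≤ N * (∑ p ∈ pr N, Real.log p / p + 2 * S) := by
    linarith
  have h6 := le_of_mul_le_mul_left h5 hN'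
  linarith

end M1_

open M1_ in
theorem p_M1 : T_M1 := by
  obtain ⟨C, hC, hlow⟩ := lower
  have hl4 : 0 ≤ Real.log 4 := Real.log_nonneg (by norm_num)
  refine ⟨C + Real.log 4, by linarith, ?_⟩
  intro n hn
  have h1 := upper n hn
  have h2 := hlow n hn
  rw [abs_le]
  constructor <;> linarith

end Pool.Agent.ACP
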