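import Pool.Agent.ACP.Targets

set_option autoImplicit false

/-!
# ACP: proof of the target M2 (second theorem of Mertens with error)
-/

open Finset

namespace Pool.Agent.ACP

namespace M2_

lemma sum_pr_succ (f : ℕ → ℝ) (n : ℕ) :
    ∑ p ∈ pr (n + 1), f p = ∑ p ∈ pr n, f p + if (n + 1).Prime then f (n + 1) else 0 := by
  unfold pr
  rw [Finset.sum_filter, Finset.sum_filter, Finset.sum_Icc_succ_top (by omega)]

/-- The potential. -/
noncomputable def Ph (n : ℕ) : ℝ :=
  (∑ p ∈ pr n, 1 / (p : ℝ)) - ((∑ p ∈ pr n, Real.log p / p) - Real.log n) / Real.log n -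
    Real.log (Real.log n)

lemma real_step (x y D E E' C : ℝ) (hx : 0 < x) (hxy : x ≤ y) (hy : y - x ≤ 1)
    (hE : |E| ≤ C) (h : y * D = E' - E + (y - x)) :
    |(D - E' / y + E / x) - (Real.log y - Real.log x)| ≤ (1 + C) * (1 / x - 1 / y) := by
  have hy0 : 0 < y := lt_of_lt_of_le hx hxy
  have hD : D - E' / y + E / x = (1 - x / y) + E * (1 / x - 1 / y) := by
    have h1 : D = (E' - E + (y - x)) / y := by
      rw [← h]
      field_simp
    rw [h1]
    field_simp
    ring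
  have hlog : Real.log y - Real.log x = Real.log (y / x) :=
    (Real.log_div hy0.ne' hx.ne').symm
  have hq : 0 < y / x := div_pos hy0 hx
  have h1 : Real.log (y / x) ≤ y / x - 1 := Real.log_le_sub_one_of_pos hq
  have h2 : 1 - x / y ≤ Real.log (y / x) := by
    have h3 := Real.one_sub_inv_le_log_of_pos hq
    rwa [inv_div] at h3
  have hinv : 0 ≤ 1 / x - 1 / y := by
    rw [sub_nonneg]
    exact one_div_le_one_div_of_le hx hxy
  have h4 : (y / x - 1) - (1 - x / y) = (y - x) * (1 / x - 1 / y) := by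
    have h7 : x / x = 1 := div_self hx.ne'
    have h8 : y / y = 1 := div_self hy0.ne'
    have h9 : (y - x) * (1 / x - 1 / y) = y / x - x / x - y / y + x / y := by ring
    rw [h9, h7, h8]
    ring
  have h5 : (y - x) * (1 / x - 1 / y) ≤ 1 / x - 1 / y := by
    calc (y - x) * (1 / x - 1 / y) ≤ 1 * (1 / x - 1 / y) :=
          mul_le_mul_of_nonneg_right hy hinv
      _ = 1 / x - 1 / y := one_mul _
  have h6 : |E * (1 / x - 1 / y)| ≤ C * (1 / x - 1 / y) := by
    rw [abs_mul, abs_of_nonneg hinv]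
    exact mul_le_mul_of_nonneg_right hE hinv
  rw [hD, hlog]
  rw [abs_le] at h6 ⊢
  constructor
  · linarith [h6.1]
  · linarith [h6.2]

lemma log_succ_sub (n : ℕ) (hn : 1 ≤ n) : Real.log ((n + 1 : ℕ) : ℝ) - Real.log (n : ℝ) ≤ 1 := by
  have hn0 : (0 : ℝ) < (n : ℝ) := by exact_mod_cast hn
  have hn1 : (1 : ℝ) ≤ (n : ℝ) := by exact_mod_cast hn
  have h1 : (0 : ℝ) < ((n + 1 : ℕ) : ℝ) := by positivity
  rw [← Real.log_div h1.ne' hn0.ne']
  have h2 := Real.log_le_sub_one_of_pos (div_pos h1 hn0)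
  have h3 : ((n + 1 : ℕ) : ℝ) / n - 1 = 1 / n := by
    push_cast
    field_simp
    ring
  have h4 : (1 : ℝ) / n ≤ 1 := by
    rw [div_le_one hn0]
    exact hn1
  linarith

lemma step (C : ℝ) (hC : ∀ n : ℕ, 1 ≤ n → |(∑ p ∈ pr n, Real.log p / p) - Real.log n| ≤ C)
    (n : ℕ) (hn : 2 ≤ n) :
    |Ph (n + 1) - Ph n| ≤ (1 + C) * (1 / Real.log n - 1 / Real.log ((n + 1 : ℕ) : ℝ)) := by
  have hn1 : (1 : ℝ) < (n : ℝ) := by exact_mod_cast hn
  have hx : 0 < Real.log (n : ℝ) := Real.log_pos hn1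
  have hxy : Real.log (n : ℝ) ≤ Real.log ((n + 1 : ℕ) : ℝ) := by
    apply Real.log_le_log (by linarith)
    exact_mod_cast Nat.le_succ n
  have hy := log_succ_sub n (by omega)
  set D : ℝ := if (n + 1).Prime then 1 / ((n + 1 : ℕ) : ℝ) else 0 with hD
  set E : ℝ := (∑ p ∈ pr n, Real.log p / p) - Real.log n with hE
  set E' : ℝ := (∑ p ∈ pr (n + 1), Real.log p / p) - Real.log ((n + 1 : ℕ) : ℝ) with hE'
  have hP : ∑ p ∈ pr (n + 1), 1 / (p : ℝ) = ∑ p ∈ pr n, 1 / (p : ℝ) + D :=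
    sum_pr_succ (fun p => 1 / (p : ℝ)) n
  have hS : ∑ p ∈ pr (n + 1), Real.log p / p = ∑ p ∈ pr n, Real.log p / p +
      Real.log ((n + 1 : ℕ) : ℝ) * D := by
    rw [sum_pr_succ (fun p => Real.log p / p) n, hD]
    congr 1
    split_ifs
    · ring
    · ring
  have h := real_step (Real.log n) (Real.log ((n + 1 : ℕ) : ℝ)) D E E' C hx hxy hy
    (hC n (by omega)) (by rw [hE, hE', hS]; ring)
  have h2 : Ph (n + 1) - Ph n = (D - E' / Real.log ((n + 1 : ℕ) : ℝ) + E / Real.log n) -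
      (Real.log (Real.log ((n + 1 : ℕ) : ℝ)) - Real.log (Real.log n)) := by
    unfold Ph
    rw [hP, ← hE, ← hE']
    ring
  rw [h2]
  exact h

lemma tele (C : ℝ) (hC : ∀ n : ℕ, 1 ≤ n → |(∑ p ∈ pr n, Real.log p / p) - Real.log n| ≤ C)
    (a b : ℕ) (ha : 2 ≤ a) (hab : a ≤ b) :
    |Ph b - Ph a| ≤ (1 + C) * (1 / Real.log a - 1 / Real.log b) := by
  induction b, hab using Nat.le_induction with
  | base => simp
  | succ n hn ih =>
    have h1 := step C hC n (by omega)
    have h2 : Ph (n + 1) - Ph a = (Ph (n + 1) - Ph n) + (Ph n - Ph a) := by ring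
    rw [h2]
    refine (abs_add_le _ _).trans ?_
    refine (add_le_add h1 ih).trans (le_of_eq ?_)
    ring

end M2_

open M2_ in
theorem p_M2 (h_M1 : T_M1) : T_M2 := by
  obtain ⟨C, hC0, hC⟩ := h_M1
  refine ⟨1 + 3 * C, by linarith, fun a b ha hab => ?_⟩
  have ha1 : (1 : ℝ) < (a : ℝ) := by exact_mod_cast ha
  have hla : 0 < Real.log (a : ℝ) := Real.log_pos ha1
  have hlab : Real.log (a : ℝ) ≤ Real.log (b : ℝ) := by
    apply Real.log_le_log (by linarith)
    exact_mod_cast hab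
  have hlb : 0 < Real.log (b : ℝ) := lt_of_lt_of_le hla hlab
  have h1 := tele C hC a b ha hab
  have h2 : (1 + C) * (1 / Real.log a - 1 / Real.log b) ≤ (1 + C) / Real.log a := by
    have h3 : (1 + C) * (1 / Real.log a - 1 / Real.log b) =
        (1 + C) / Real.log a - (1 + C) / Real.log b := by ring
    have h4 : 0 ≤ (1 + C) / Real.log b := div_nonneg (by linarith) hlb.le
    linarith
  have h5 : |((∑ p ∈ pr a, Real.log p / p) - Real.log a) / Real.log a| ≤ C / Real.log a := by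
    rw [abs_div, abs_of_pos hla]
    exact div_le_div_of_nonneg_right (hC a (by omega)) hla.le
  have h6 : |((∑ p ∈ pr b, Real.log p / p) - Real.log b) / Real.log b| ≤ C / Real.log a := by
    rw [abs_div, abs_of_pos hlb]
    exact (div_le_div_of_nonneg_right (hC b (by omega)) hlb.le).trans
      (div_le_div_of_nonneg_left hC0 hla hlab)
  have h7 : (∑ p ∈ pr b, 1 / (p : ℝ)) - (∑ p ∈ pr a, 1 / (p : ℝ)) -
      (Real.log (Real.log b) - Real.log (Real.log a)) = (Ph b - Ph a) +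
      ((∑ p ∈ pr b, Real.log p / p) - Real.log b) / Real.log b -
      ((∑ p ∈ pr a, Real.log p / p) - Real.log a) / Real.log a := by
    unfold Ph
    ring
  have h8 : (1 + 3 * C) / Real.log a = (1 + C) / Real.log a + C / Real.log a +
      C / Real.log a := by ring
  rw [h7, h8]
  rw [abs_le] at h1 h5 h6 ⊢
  constructor
  · linarith [h1.1, h5.2, h6.1]
  · linarith [h1.2, h5.1, h6.2]

end Pool.Agent.ACP
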