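import Pool.Agent.ACP.Targets

set_option autoImplicit false

/-!
# ACP: the target T_M3 (Cauchy property of the logarithm of the product of Mertens)
-/

open Finset

namespace Pool.Agent.ACP

namespace M3_

/-- `∑_{p ≤ y} (gp p - 1/p)`. -/
noncomputable def F (y : ℕ) : ℝ := ∑ p ∈ pr y, (gp p - 1 / (p : ℝ))

lemma gp_bounds (n : ℕ) (hn : 1 ≤ n) :
    0 ≤ gp (n + 1) - 1 / ((n + 1 : ℕ) : ℝ) ∧
      gp (n + 1) - 1 / ((n + 1 : ℕ) : ℝ) ≤ 1 / (n : ℝ) - 1 / ((n + 1 : ℕ) : ℝ) := by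
  have hn0 : (0 : ℝ) < (n : ℝ) := by exact_mod_cast hn
  have hx : (1 : ℝ) - 1 / ((n + 1 : ℕ) : ℝ) = (n : ℝ) / ((n : ℝ) + 1) := by
    push_cast
    field_simp
    ring
  have hpos : (0 : ℝ) < (n : ℝ) / ((n : ℝ) + 1) := by positivity
  have h1 := Real.log_le_sub_one_of_pos hpos
  have h2 := Real.one_sub_inv_le_log_of_pos hpos
  have hinv : ((n : ℝ) / ((n : ℝ) + 1))⁻¹ = 1 + 1 / (n : ℝ) := by
    field_simp
  rw [hinv] at h2
  rw [← hx] at h1
  unfold gp
  constructor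
  · linarith
  · rw [hx]
    linarith

lemma pr_succ (n : ℕ) : pr (n + 1) = if (n + 1).Prime then insert (n + 1) (pr n) else pr n := by
  ext p
  unfold pr
  by_cases hp : (n + 1).Prime
  · rw [if_pos hp]
    simp only [Finset.mem_filter, Finset.mem_Icc, Finset.mem_insert]
    constructor
    · rintro ⟨⟨h1, h2⟩, h3⟩
      rcases Nat.lt_or_ge n p with h | h
      · left
        omega
      · right
        exact ⟨⟨h1, h⟩, h3⟩
    · rintro (h | ⟨⟨h1, h2⟩, h3⟩)
      · subst h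
        exact ⟨⟨by omega, le_refl _⟩, hp⟩
      · exact ⟨⟨h1, by omega⟩, h3⟩
  · rw [if_neg hp]
    simp only [Finset.mem_filter, Finset.mem_Icc]
    constructor
    · rintro ⟨⟨h1, h2⟩, h3⟩
      refine ⟨⟨h1, ?_⟩, h3⟩
      rcases Nat.lt_or_ge n p with h | h
      · exfalso
        have : p = n + 1 := by omega
        rw [this] at h3
        exact hp h3
      · exact h
    · rintro ⟨⟨h1, h2⟩, h3⟩
      exact ⟨⟨h1, by omega⟩, h3⟩

lemma not_mem_pr (n : ℕ) : n + 1 ∉ pr n := by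
  unfold pr
  intro h
  have h1 := (Finset.mem_Icc.mp (Finset.mem_filter.mp h).1).2
  omega

lemma F_succ (n : ℕ) (hn : 1 ≤ n) : F n ≤ F (n + 1) ∧
    F (n + 1) ≤ F n + (1 / (n : ℝ) - 1 / ((n + 1 : ℕ) : ℝ)) := by
  have hb := gp_bounds n hn
  unfold F
  rw [pr_succ]
  by_cases hp : (n + 1).Prime
  · rw [if_pos hp, Finset.sum_insert (not_mem_pr n)]
    constructor
    · linarith [hb.1]
    · linarith [hb.2]
  · rw [if_neg hp]
    constructor
    · exact le_refl _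
    · linarith [hb.1, hb.2]

lemma F_diff (a b : ℕ) (ha : 1 ≤ a) (hab : a ≤ b) :
    0 ≤ F b - F a ∧ F b - F a ≤ 1 / (a : ℝ) - 1 / (b : ℝ) := by
  induction b, hab using Nat.le_induction with
  | base => simp
  | succ n hn ih =>
    have h := F_succ n (le_trans ha hn)
    constructor
    · linarith [h.1, ih.1]
    · linarith [h.2, ih.2]

lemma G_eq (y : ℕ) : G y = F y + ∑ p ∈ pr y, 1 / (p : ℝ) := by
  unfold G F
  rw [← Finset.sum_add_distrib]
  refine Finset.sum_congr rfl fun p _ => ?_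
  ring

end M3_

theorem p_M3 (h_M2 : T_M2) : T_M3 := by
  obtain ⟨C, hC, hM⟩ := h_M2
  intro κ hκ
  refine ⟨max 2 (max ⌈Real.exp (2 * C / κ)⌉₊ ⌈2 / κ⌉₊), le_max_left _ _, ?_⟩
  intro a b ha hab
  have ha2 : 2 ≤ a := le_trans (le_max_left _ _) ha
  have ha3 : ⌈Real.exp (2 * C / κ)⌉₊ ≤ a :=
    le_trans (le_trans (le_max_left _ _) (le_max_right _ _)) ha
  have ha4 : ⌈2 / κ⌉₊ ≤ a := le_trans (le_trans (le_max_right _ _) (le_max_right _ _)) ha
  have ha3' : Real.exp (2 * C / κ) ≤ (a : ℝ) := le_trans (Nat.le_ceil _) (by exact_mod_cast ha3)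
  have ha4' : 2 / κ ≤ (a : ℝ) := le_trans (Nat.le_ceil _) (by exact_mod_cast ha4)
  have ha0 : (0 : ℝ) < (a : ℝ) := by
    have : 0 < a := by omega
    exact_mod_cast this
  have ha1 : (1 : ℝ) < (a : ℝ) := by
    have : 1 < a := by omega
    exact_mod_cast this
  have hlog : 2 * C / κ ≤ Real.log a := by
    rw [Real.le_log_iff_exp_le ha0]
    exact ha3'
  have hlog0 : 0 < Real.log a := Real.log_pos ha1
  have hE1 : C / Real.log a ≤ κ / 2 := by
    rw [div_le_iff₀ hlog0]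
    rw [div_le_iff₀ hκ] at hlog
    linarith
  have hE2 : 1 / (a : ℝ) ≤ κ / 2 := by
    rw [div_le_iff₀ ha0]
    rw [div_le_iff₀ hκ] at ha4'
    linarith
  have hF := M3_.F_diff a b (by omega) hab
  have hb0 : 0 ≤ 1 / (b : ℝ) := by positivity
  have h2 := hM a b ha2 hab
  rw [M3_.G_eq b, M3_.G_eq a]
  rw [abs_le] at h2 ⊢
  constructor
  · linarith [h2.1, hF.1]
  · linarith [h2.2, hF.2]

end Pool.Agent.ACP
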