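import Pool.Agent.ACP.Defs

set_option autoImplicit false

/-!
# ACP: targets (MP_512c7d_nt). Every target has its proof in the docstring.
-/

open Finset

namespace Pool.Agent.ACP

/-! ## Block A: the product of Mertens, lower bound for `V⁻¹` with the constant `e^γ` -/

/-- M1. First theorem of Mertens. PROOF. Both halves are in the pool: upper bound
`Pool.Agent.QTw.MERT_.mertens` (Pool/Agent/QTw/MERT.lean), lower bound `mertens_lower`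
(Pool/Agent/Helper2/PackAPC.lean); adapt the index sets (or prove it from
`log n! = n log n + O(n)` and Chebyshev). -/
def T_M1 : Prop := ∃ C : ℝ, 0 ≤ C ∧ ∀ n : ℕ, 1 ≤ n →
  |(∑ p ∈ pr n, Real.log p / p) - Real.log n| ≤ C

/-- M2. PROOF (uses T_M1). `s n = ∑_{p ≤ n} log p / p = log n + e n`, `|e n| ≤ C`. Then
`∑_{a < p ≤ b} 1/p = ∑_{n=a+1}^b (s n - s (n-1))/log n`. The part with `e`: summation by parts,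
absolute value at most `3 C / log a` (the weights `1/log n` decrease). The part with `log`:
`x = log (n-1)`, `y = log n`: `(y - x)/y ≤ log y - log x ≤ (y - x)/x`, so it differs from
`log log b - log log a` by at most `∑ (y - x)(1/x - 1/y) ≤ ∑ (1/x - 1/y) ≤ 1/log a`
(`y - x ≤ 1`). -/
def T_M2 : Prop := ∃ C : ℝ, 0 ≤ C ∧ ∀ a b : ℕ, 2 ≤ a → a ≤ b →
  |(∑ p ∈ pr b, 1 / (p : ℝ)) - (∑ p ∈ pr a, 1 / (p : ℝ)) -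
    (Real.log (Real.log b) - Real.log (Real.log a))| ≤ C / Real.log a

/-- M3. PROOF (uses T_M2). `0 ≤ gp p - 1/p ≤ 1/(p(p-1))` for `p ≥ 2`
(`log x ≥ 1 - 1/x` at `x = 1 - 1/p` gives `gp p ≤ 1/(p-1)`), and
`∑_{n > a} 1/(n(n-1)) ≤ 1/a`; the two errors are `C/log a + 1/a`, small for `a ≥ x₀`. -/
def T_M3 : Prop := ∀ κ : ℝ, 0 < κ → ∃ x₀ : ℕ, 2 ≤ x₀ ∧ ∀ a b : ℕ, x₀ ≤ a → a ≤ b →
  |G b - G a - (Real.log (Real.log b) - Real.log (Real.log a))| ≤ κ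

/-- M4. PROOF. `∑_{n ≤ x} n^(-1-δ) ≥ ∫_1^{x+1} t^(-1-δ) dt = (1 - (x+1)^(-δ))/δ`, and
`∑_{n ≤ x} n^(-1-δ) ≤ ∏_{p ≤ x} (1 - p^(-1-δ))⁻¹` (Euler product over `x`-smooth numbers, e.g.
`EulerProduct` / `Nat.smoothNumbers` / `Nat.primesBelow (x+1)`), and
`-log (1 - p^(-1-δ)) ≤ p^(-δ) gp p`: with `v = 1/p`, `s = p^(-δ) ∈ (0, 1]` this is
`-log (1 - s v) ≤ -s log (1 - v)`, concavity of `log` (`(1 - v)^s ≤ 1 - s v`, Bernoulli,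
`Real.rpow_one_add_le_one_add_mul_self`). -/
def T_M4 : Prop := ∀ (δ : ℝ) (x : ℕ), 0 < δ → 1 ≤ x →
  Real.log ((1 - ((x : ℝ) + 1) ^ (-δ)) / δ) ≤ ∑ p ∈ pr x, gp p * (p : ℝ) ^ (-δ)

/-- M5. PROOF. `∫_0^∞ log t e^(-t) dt = Γ'(1) = -γ` (Mathlib:
`Real.eulerMascheroniConstant_eq_neg_deriv`
or `Real.hasDerivAt_Gamma_one`, with `Complex.hasDerivAt_GammaIntegral` for the derivative as an
integral; integrability from the same file or `mellin` lemmas), then substitute `t = δ s`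
(`∫_0^∞ δ e^(-δt) dt = 1`). -/
def T_M5 : Prop := ∀ δ : ℝ, 0 < δ →
  MeasureTheory.IntegrableOn (fun t : ℝ => Real.log t * (δ * Real.exp (-(δ * t)))) (Set.Ioi 0) ∧
  ∫ t in Set.Ioi (0 : ℝ), Real.log t * (δ * Real.exp (-(δ * t))) =
    -Real.eulerMascheroniConstant - Real.log δ

/-- M6. PROOF (uses T_M4, T_M5 for the integrability). Summation by parts (`G 0 = 0`):
`∑_{p ≤ x} gp p p^(-δ) = ∑_{n=1}^x G n (n^(-δ) - (n+1)^(-δ)) + G x (x+1)^(-δ)`. The terms with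
`n < x₁` give at most `G x₁ (1 - x₁^(-δ)) ≤ G x₁ δ log x₁`. For `n ≥ x₁`:
`n^(-δ) - (n+1)^(-δ) = ∫_{log n}^{log (n+1)} δ e^(-δt) dt` and `G n ≤ log log n + B ≤ log t + B`
on this interval. So by T_M4, for all `x ≥ x₁`,
`log ((1 - (x+1)^(-δ))/δ) ≤ ∫_{log x₁}^{log (x+1)} (log t + B) δ e^(-δt) dt + G x₁ δ log x₁ +
G x (x+1)^(-δ)`; let `x → ∞` (`0 ≤ G x ≤ log log x + B`). -/
def T_M6 : Prop := ∀ (B δ : ℝ) (x₁ : ℕ), 0 < δ → 2 ≤ x₁ →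
  (∀ x : ℕ, x₁ ≤ x → G x ≤ Real.log (Real.log x) + B) →
  Real.log (1 / δ) ≤ (∫ t in Set.Ioi (Real.log x₁), (Real.log t + B) * (δ * Real.exp (-(δ * t))))
    + G x₁ * (δ * Real.log x₁)

/-- M7. PROOF (uses T_M5, T_M6). `∫_{Ioi (log x₁)} = ∫_{Ioi 0} - ∫_{Ioc 0 (log x₁)}`, the first is
`-γ - log δ + B`, the second has absolute value at most `δ K` with
`K = ∫_0^{log x₁} |log t + B| dt`. So `-log δ ≤ -γ - log δ + B + δ K'` for all `δ > 0`;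
`δ → 0`. -/
def T_M7 : Prop := ∀ (B : ℝ) (x₁ : ℕ), 2 ≤ x₁ →
  (∀ x : ℕ, x₁ ≤ x → G x ≤ Real.log (Real.log x) + B) → Real.eulerMascheroniConstant ≤ B

/-- MT3. Third theorem of Mertens, lower bound. PROOF (uses T_M3, T_M7). Let `κ' > 0`, `x₀` from
T_M3 for `κ'`, `B = G x₀ - log log x₀ + κ'`: by T_M7 `γ ≤ B`, so
`G x ≥ log log x + G x₀ - log log x₀ - κ' ≥ log log x + γ - 2κ'`; `(V x)⁻¹ = exp (G x)` and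
`e^(γ - 2κ') ≥ e^γ - κ` for small `κ'`. -/
def T_MT3 : Prop := ∀ κ : ℝ, 0 < κ → ∃ x₀ : ℕ, 2 ≤ x₀ ∧ ∀ x : ℕ, x₀ ≤ x →
  (Real.exp Real.eulerMascheroniConstant - κ) * Real.log x ≤ (V x)⁻¹

/-! ## Block B: number of divisors -/

/-- DIV. Divisor bound. PROOF. `τ(n)/n^ε = ∏_{p^a ∥ n} (a+1)/p^(aε)`; a factor with `p ≥ 2^(1/ε)`
is at
most `(a+1)/2^a ≤ 1`, the factors with `p < 2^(1/ε)` are at most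
`a + 1 ≤ (a ε log 2 + 1) max (1, 1/(ε log 2)) ≤ max (..) 2^(aε)`, so
`C = (1 + 1/(ε log 2))^(2^(1/ε) + 1)`. (Compare Pool/Agent/Tri5/DIV.lean for a special case.) -/
def T_DIV : Prop := ∀ ε : ℝ, 0 < ε → ∃ C : ℝ, 1 ≤ C ∧ ∀ n : ℕ, 1 ≤ n → tau n ≤ C * (n : ℝ) ^ ε

/-! ## Block C: variance of type I sums over the residue classes -/

/-- GEO. PROOF. `‖∑‖ ≤ Y` trivially. Geometric sum: with `ζ = stdAddChar a ≠ 1`,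
`‖∑_{m=1}^Y ζ^m‖ ≤ 2/‖1 - ζ‖`, `‖1 - e(r/Q)‖ = 2 |sin (π r/Q)| ≥ 4 |r|/Q` for
`|r| ≤ Q/2` (`Real.mul_le_sin`), `r = a.valMinAbs`. -/
def T_GEO : Prop := ∀ (Q : ℕ) [NeZero Q] (a : ZMod Q) (Y : ℕ), a ≠ 0 →
  ‖∑ m ∈ Icc 1 Y, ZMod.stdAddChar (a * (m : ZMod Q))‖ ≤
    min (Y : ℝ) ((Q : ℝ) / |((a.valMinAbs : ℤ) : ℝ)|)

/-- PAR. Parseval. PROOF. `∑_h ‖∑_b f b ψ(h b)‖^2 = Q ∑_b (f b)^2` (orthogonality,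
`AddChar.sum_mulShift` or `ZMod.dft` Parseval); `h = 0` gives `(∑ f)^2`; and
`∑_b (f b - F/Q)^2 = ∑ (f b)^2 - F^2/Q`. -/
def T_PAR : Prop := ∀ (Q : ℕ) [NeZero Q] (f : ZMod Q → ℝ),
  ∑ b : ZMod Q, (f b - (∑ c : ZMod Q, f c) / Q) ^ 2 =
    (1 / (Q : ℝ)) * ∑ h ∈ (univ : Finset (ZMod Q)).erase 0,
      ‖∑ b : ZMod Q, (f b : ℂ) * ZMod.stdAddChar (h * b)‖ ^ 2

/-- HAT. PROOF (uses T_GEO). `∑_b TT b ψ(h b) = ∑_d c_d ∑_{m ≤ N/d} ψ(h d m)` (exchange the sums;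
each
`m` lies in exactly one class `b = d m`). If `c_d ≠ 0` then `d` is a unit mod `Q`, so
`h d ≠ 0`, and T_GEO (`(N/d : ℕ) ≤ (N : ℝ)/d`). -/
def T_HAT : Prop := ∀ (Q : ℕ) [NeZero Q] (N D : ℕ) (c : ℕ → ℝ) (K : ℝ) (h : ZMod Q), h ≠ 0 →
  (∀ d, |c d| ≤ K) → (∀ d, c d ≠ 0 → d.Coprime Q) →
  ‖∑ b : ZMod Q, (TT Q N D c b : ℂ) * ZMod.stdAddChar (h * b)‖ ≤
    K * ∑ d ∈ (Icc 1 D).filter (fun d => d.Coprime Q), w Q N d (h * (d : ZMod Q)).valMinAbs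

/-- RED. PROOF. Expand the square: a sum over `(h, d₁, d₂)`. The map
`(h, d₁, d₂) ↦ ((d₁, (h d₁).valMinAbs), (d₂, (h d₂).valMinAbs))` is injective (`h = r₁ d₁⁻¹`), its
values are in `ZZ Q D` (`h d₁ ≠ 0`, `|valMinAbs| ≤ Q/2`, `d₁ r₂ = h d₁ d₂ = d₂ r₁` in `ZMod Q`), all
terms are `≥ 0`: `Finset.sum_le_sum_of_injOn` / `sum_image`. -/
def T_RED : Prop := ∀ (Q : ℕ) [NeZero Q] (N D : ℕ),
  ∑ h ∈ (univ : Finset (ZMod Q)).erase 0,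
    (∑ d ∈ (Icc 1 D).filter (fun d => d.Coprime Q), w Q N d (h * (d : ZMod Q)).valMinAbs) ^ 2 ≤
  ∑ x ∈ ZZ Q D, w Q N x.1.1 x.1.2 * w Q N x.2.1 x.2.2

/-- Z0. The diagonal. PROOF (uses T_DIV). Let `v = d₁ r₂ = d₂ r₁ ≠ 0`, `|v| ≤ D Q ≤ N^2`. As
`min (a, b) ≤ √(a b)`, `w w ≤ N Q / √(d₁ |r₁| d₂ |r₂|) = N Q/|v|` (`d₁ |r₂| = d₂ |r₁| = |v|`). The
quadruple is determined by `v`, `d₁ ∣ |v|`, `d₂ ∣ |v|`. So the sum is at most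
`2 N Q ∑_{v=1}^{DQ} τ(v)^2/v ≤ 2 N Q (C (N^2)^ε')^2 (1 + log (N^2))`, `ε' = ε/8`. -/
def T_Z0 : Prop := ∀ ε : ℝ, 0 < ε → ∃ C : ℝ, 0 ≤ C ∧ ∀ Q N D : ℕ, 1 ≤ Q → 1 ≤ D → D ≤ N → Q ≤ N →
  ∑ x ∈ (ZZ Q D).filter (fun x => (x.1.1 : ℤ) * x.2.2 = (x.2.1 : ℤ) * x.1.2),
    w Q N x.1.1 x.1.2 * w Q N x.2.1 x.2.2 ≤ C * (N : ℝ) ^ ε * (N * Q)

/-- Z1. The rest. PROOF (uses T_DIV). `u = d₁ r₂`, `v = d₂ r₁`, `u ≠ v`, `Q ∣ u - v`,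
`0 < |u|, |v| ≤ D Q`; `w w ≤ (Q/|r₁|)(Q/|r₂|) = Q^2 d₁ d₂/(|u||v|) ≤ Q^2 D^2/(|u||v|)`. The
quadruple is
determined by `u, v`, `d₁ ∣ |u|`, `d₂ ∣ |v|`. So the sum is at most `M^2 Q^2 D^2 S`, `M` the
maximum of
`τ` up to `D Q`, `S = ∑ 1/(|u||v|)` over `u ≠ v`, `Q ∣ u - v`. If `|u| ≤ |v|` then
`|v| ≥ |u - v|/2`, `u - v = Q t`, `0 < |t| ≤ 2D`: `S ≤ 2 ∑_u ∑_t (1/|u|)(2/(Q|t|)) ≤
(16/Q)(1 + log (D Q))(1 + log (2D))`. -/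
def T_Z1 : Prop := ∀ ε : ℝ, 0 < ε → ∃ C : ℝ, 0 ≤ C ∧ ∀ Q N D : ℕ, 1 ≤ Q → 1 ≤ D → D ≤ N → Q ≤ N →
  ∑ x ∈ (ZZ Q D).filter (fun x => (x.1.1 : ℤ) * x.2.2 ≠ (x.2.1 : ℤ) * x.1.2),
    w Q N x.1.1 x.1.2 * w Q N x.2.1 x.2.2 ≤ C * (N : ℝ) ^ ε * (Q * D ^ 2)

/-- VAR. Variance. PROOF (uses T_PAR, T_HAT, T_RED, T_Z0, T_Z1): put together. -/
def T_VAR : Prop := ∀ ε : ℝ, 0 < ε → ∃ C : ℝ, 0 ≤ C ∧ ∀ (Q : ℕ) [NeZero Q] (N D : ℕ) (c : ℕ → ℝ)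
  (K : ℝ), 1 ≤ D → D ≤ N → Q ≤ N → (∀ d, |c d| ≤ K) → (∀ d, c d ≠ 0 → d.Coprime Q) →
  ∑ b : ZMod Q, (TT Q N D c b - (∑ b' : ZMod Q, TT Q N D c b') / Q) ^ 2 ≤
    C * K ^ 2 * (N : ℝ) ^ ε * (N + D ^ 2)

/-! ## Block D: Selberg's weights -/

/-- LS. PROOF. `log R ≤ ∑_{n ≤ R} 1/n` (`log_add_one_le_harmonic`), and `∑_{n ≤ R} 1/n` is the
sum over
the squarefree `m ≤ R` of `∑_{n ≤ R, rad n = m} 1/n ≤ ∏_{p ∣ m} (1/p + 1/p^2 + ...) = 1/φ(m)`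
(induction over the prime factors of `m`, or Mathlib's Euler products over
`Nat.factoredNumbers m.primeFactors`, all `n` with `rad n = m` are `m n'`,
`∑ 1/n' = ∏ (1 - 1/p)⁻¹`). -/
def T_LS : Prop := ∀ R : ℕ, 1 ≤ R → Real.log R ≤ LQ 1 R

/-- LQ. PROOF. `∑_{a ∣ Q} f2 a = Q/φ(Q)` (both sides multiplicative; or induction over the prime
factors). A squarefree `m ≤ R` is `m = a b`, `a = gcd (m, Q)`, `b` coprime to `Q`,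
`f2 m = f2 a * f2 b`; `m ↦ (a, b)` is injective. So `LQ 1 R ≤ (∑_{a ∣ Q} f2 a) LQ Q R`. -/
def T_LQ : Prop := ∀ Q R : ℕ, 1 ≤ Q → LQ 1 R ≤ (Q : ℝ) / (Nat.totient Q : ℝ) * LQ Q R

/-- SD. Diagonalisation. PROOF. `1/lcm (d,e) = gcd (d,e)/(d e)`, `gcd (d,e) = ∑_{k ∣ d, k ∣ e} φ(k)`
(`Nat.sum_totient`), so the left side is `∑_{k ≤ R} φ(k) (∑_{k ∣ d ≤ R} l_d/d)^2`, and
`∑_{k ∣ d ≤ R} l_d/d = ∑_{m ≤ R} y_m ∑_{k ∣ d ∣ m} μ(m/d) = y_k`. -/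
def T_SD : Prop := ∀ (R : ℕ) (y l : ℕ → ℝ),
  (∀ d ∈ Icc 1 R, l d = d * ∑ m ∈ (Icc 1 R).filter (fun m => d ∣ m),
    (ArithmeticFunction.moebius (m / d) : ℝ) * y m) →
  ∑ d ∈ Icc 1 R, ∑ e ∈ Icc 1 R, l d * l e / (Nat.lcm d e : ℝ) =
    ∑ m ∈ Icc 1 R, (Nat.totient m : ℝ) * y m ^ 2

/-- SEL. Selberg's weights. PROOF (uses T_LS, T_LQ, T_SD). `Λ = LQ Q R > 0`,
`y_m = μ(m) f2(m)/Λ` for `m ≤ R`, `(m, Q) = 1`, else `0`; `l_d = d ∑_{m ≤ R, d ∣ m} μ(m/d) y_m` for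
`1 ≤ d ≤ R`, else `0`. Then `l_1 = ∑ μ(m)^2 f2(m)/Λ = 1`; the quadratic form is
`∑ φ(m) f2(m)^2/Λ^2 = 1/Λ ≤ (Q/φ(Q))/log R`. For `l_d`: all `m` in the sum are squarefree,
coprime to
`Q` and `m = d k`, `(d, k) = 1`, so `l_d = 0` unless `d` is squarefree and coprime to `Q`, and
`|l_d| ≤ (d/φ(d)) (∑_{k ≤ R, (k,Q)=1} f2(k))/Λ = d/φ(d) = ∏_{p ∣ d} p/(p-1) ≤ 2^ω(d) = τ(d)`. -/
def T_SEL : Prop := ∀ Q R : ℕ, 1 ≤ Q → 2 ≤ R → ∃ l : ℕ → ℝ, l 1 = 1 ∧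
  (∀ d, l d ≠ 0 → 1 ≤ d ∧ d ≤ R ∧ d.Coprime Q) ∧ (∀ d, |l d| ≤ tau d) ∧
  ∑ d ∈ Icc 1 R, ∑ e ∈ Icc 1 R, l d * l e / (Nat.lcm d e : ℝ) ≤
    (Q : ℝ) / (Nat.totient Q : ℝ) / Real.log R

/-- EXC. Squaring out. PROOF. `c d = ∑_{e, f ≤ R, lcm (e,f) = d} l e * l f`. If `c d ≠ 0` then
`d = lcm (e, f) ≤ R^2`, coprime to `Q`. At most `τ(d)^2` pairs, each of absolute value at most
`τ(e) τ(f) ≤ τ(d)^2`. `lcm (e, f) ∣ m` iff `e ∣ m` and `f ∣ m`. The last two: rearrangement. -/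
def T_EXC : Prop := ∀ (Q R : ℕ) (l : ℕ → ℝ), (∀ d, l d ≠ 0 → 1 ≤ d ∧ d ≤ R ∧ d.Coprime Q) →
  (∀ d, |l d| ≤ tau d) → ∃ c : ℕ → ℝ, (∀ d, c d ≠ 0 → 1 ≤ d ∧ d ≤ R ^ 2 ∧ d.Coprime Q) ∧
    (∀ d, |c d| ≤ tau d ^ 4) ∧
    (∀ m, 1 ≤ m → (∑ d ∈ m.divisors, l d) ^ 2 = ∑ d ∈ m.divisors, c d) ∧
    (∑ d ∈ Icc 1 (R ^ 2), c d / d =
      ∑ d ∈ Icc 1 R, ∑ e ∈ Icc 1 R, l d * l e / (Nat.lcm d e : ℝ)) ∧
    ∑ d ∈ Icc 1 (R ^ 2), |c d| ≤ (∑ d ∈ Icc 1 R, |l d|) ^ 2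

/-- UB. The sieve in mean square. PROOF (uses T_SEL, T_EXC, T_VAR, T_DIV).
`t b = ∑_{m ≤ N, m = b (Q)} (∑_{d ∣ m} l d)^2`. A prime `m > R` has `∑_{d ∣ m} l d = l 1 = 1`. By
EXC
(`m = d m'`) `t b = TT Q N (R^2) c b`, with `|c d| ≤ K = C N^(ε')` for `d ≤ R^2 ≤ N` (change `c`
to `0`
for `d > R^2`). `∑_b t b = ∑_d c_d (N/d : ℕ) ≤ N ∑ c_d/d + ∑ |c_d|` and
`∑_{d ≤ R} |l d| ≤ R * C R^(ε')`. VAR with `D = R^2`, `D^2 = R^4 ≤ N`. -/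
def T_UB : Prop := ∀ ε : ℝ, 0 < ε → ∃ C : ℝ, 0 ≤ C ∧ ∀ (Q N R : ℕ) [NeZero Q], Q ≤ N → 2 ≤ R →
  R ^ 4 ≤ N → ∃ t : ZMod Q → ℝ, (∀ b, 0 ≤ t b) ∧
    (∀ b : ZMod Q, (((Icc 1 N).filter fun m => m.Prime ∧ R < m ∧ ((m : ℕ) : ZMod Q) = b).card : ℝ)
      ≤ t b) ∧
    ∑ b : ZMod Q, t b ≤ N * ((Q : ℝ) / (Nat.totient Q : ℝ)) / Real.log R +
      C * (N : ℝ) ^ ε * R ^ 2 ∧
    ∑ b : ZMod Q, (t b - (∑ b' : ZMod Q, t b') / Q) ^ 2 ≤ C * (N : ℝ) ^ ε * N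

/-! ## Block E: killing elements -/

/-- GR1. PROOF. For every finite set `T` of positive integers (here `pr y`): induction over `T`; the
class mod `p` with the most survivors contains at least the fraction `1/p` of them. -/
def T_GR1 : Prop := ∀ (S : Finset ℕ) (y : ℕ), ∃ r : ℕ → ℕ,
  ((S.filter fun a => ∀ p ∈ pr y, ¬ a ≡ r p [MOD p]).card : ℝ) ≤ S.card * V y

/-- GR2. PROOF. Among all pairs `(P₁, r)` with `P₁ ⊆ P` and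
`h |P₁| + #(survivors of S) ≤ |S|` (the survivors avoid `r q` mod `q` for all `q ∈ P₁`; `(∅, 0)`
is one)
take one with `|P₁|` maximal. If a class `c` mod `p ∈ P \ P₁` contains more than `h` survivors, add
`p` with `r p = c` (`Function.update`). -/
def T_GR2 : Prop := ∀ (S P : Finset ℕ) (h : ℕ), ∃ (P₁ : Finset ℕ) (r : ℕ → ℕ), P₁ ⊆ P ∧
  h * P₁.card ≤ S.card ∧ ∀ p ∈ P \ P₁, ∀ c : ℕ,
    ((S.filter fun a => (∀ q ∈ P₁, ¬ a ≡ r q [MOD q]) ∧ a ≡ c [MOD p]).card ≤ h)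

/-- BIJ. PROOF. Chinese remainder theorem (`Nat.chineseRemainderOfFinset`, or induction) for the
moduli `Q₀` and `p ∈ P`. If `b σ ≡ c` then `σ p ≡ c mod p` for all `p ∈ P`, so `σ ↦ (σ p)_p` maps
the
set injectively to `Fintype.piFinset` of the classes, whose card is at most `h ^ |P|`. -/
def T_BIJ : Prop := ∀ (P S : Finset ℕ) (Q₀ x h : ℕ), (∀ p ∈ P, p.Prime) → P.card = S.card →
  0 < Q₀ → (∀ p ∈ P, ¬ p ∣ Q₀) → (∀ p ∈ P, ∀ c : ℕ, (S.filter fun a => a ≡ c [MOD p]).card ≤ h) →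
  ∃ b : (P ≃ S) → ℕ, (∀ σ, b σ ≡ x [MOD Q₀]) ∧
    (∀ (σ : P ≃ S) (p : P), b σ ≡ ((σ p : S) : ℕ) [MOD (p : ℕ)]) ∧
    ∀ c : ℕ, (Finset.univ.filter fun σ => b σ ≡ c [MOD Q₀ * ∏ p ∈ P, p]).card ≤ h ^ P.card

/-- STR. PROOF (uses T_GR1, T_GR2, T_BIJ). `S` = survivors of GR1 for `A`, `y`. GR2 for `S`, `P`,
`h`
gives `P₁`, `|P₁| ≤ j` (`h |P₁| ≤ |S| ≤ |A| ≤ h j`), `S'` = survivors. If `|S'| ≤ k`: choose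
`P₂ ⊆ P \ P₁` with `|S'|` elements (`|P \ P₁| ≥ k`), else with `k` elements; `S₁ ⊆ S'` with `|P₂|`
elements; `Rs = S' \ S₁`, `P' = P₁ ∪ P₂`, `Q₀ = W y ∏_{P₁} p`, `x` with `x ≡ r p` for the primes
`p` of
`Q₀` (CRT), `ι = (P₂ ≃ S₁)` and `b` of BIJ. An element of `A` outside `Rs` is `≡ b i` modulo a prime
of `Q`. If `Rs` is non-empty then `|P₂| = k`, `|ι| = k!`, `|Rs| = |S'| - k`, and
`k! ≤ ∏_{P₂} p ≤ Q` (the product of `k` different positive integers is at least `k!`). -/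
def T_STR : Prop := ∀ (A P : Finset ℕ) (y k j h : ℕ), (∀ p ∈ P, p.Prime ∧ y < p) →
  P.card = k + j → 1 ≤ h → A.card ≤ h * j →
  ∃ (P' Rs : Finset ℕ) (ι : Type) (_ : Fintype ι) (b : ι → ℕ), P' ⊆ P ∧ Nonempty ι ∧ Rs ⊆ A ∧
    (∀ i, ∀ a ∈ A, a ∉ Rs → ∃ p, (p ∈ pr y ∨ p ∈ P') ∧ b i ≡ a [MOD p]) ∧
    ((Rs.card : ℝ) ≤ max 0 (A.card * V y - k)) ∧
    (Rs.Nonempty → k.factorial ≤ W y * ∏ p ∈ P', p ∧ Fintype.card ι = k.factorial ∧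
      ∀ c : ℕ, (Finset.univ.filter fun i => b i ≡ c [MOD W y * ∏ p ∈ P', p]).card ≤ h ^ k)

/-- AVG. PROOF. Cauchy-Schwarz: `∑_i (t (b i - s) - t̄) ≤ √(|ι| ∑_i (t (b i - s) - t̄)^2)` and
`∑_i (t (b i - s) - t̄)^2 = ∑_c #{i : b i - s = c} (t c - t̄)^2 ≤ m ∑_c (t c - t̄)^2`. -/
def T_AVG : Prop := ∀ (Q : ℕ) [NeZero Q] (t : ZMod Q → ℝ) (ι : Type) [Fintype ι] (b : ι → ZMod Q)
  (m : ℕ) (s : ZMod Q), (∀ c, (Finset.univ.filter fun i => b i = c).card ≤ m) →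
  ∑ i, t (b i - s) ≤ Fintype.card ι * ((∑ c, t c) / Q) +
    Real.sqrt (Fintype.card ι * (m * ∑ c, (t c - (∑ c', t c') / Q) ^ 2))

/-- COR. The main inequality for one `N`. PROOF (uses T_STR, T_UB, T_AVG). `Q = W y ∏_{P'} p`
(squarefree, `Q/φ(Q) ≤ (V y)⁻¹ ∏_{p ∈ P} (1 - 1/p)⁻¹`). For each `i` the class `n ≡ b i (mod Q)`
has at
least `N/Q - 1` elements `n ∈ [1, N]`. Such an `n` is counted by `mis`, or `n = p + a` with `p`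
prime,
`a ∈ A`: (1) `a ∉ Rs`: some prime `q` of `pr y` or `P'` divides `n - a = p`, so `p = q`: at most
`|A| (y + k + j)` pairs `(q, a)`; (2) `a ∈ Rs` and `p ≤ R`: for each `a` at most `R/Q + 1 ≤ 2`
numbers
`n` (`R ≤ k! ≤ Q`); (3) `a ∈ Rs`, `p > R`: at most `t (b i - a)` numbers. Sum over `i`, divide by
`|ι|`, AVG with `m = h^k`, `|ι| = k!`. If `Rs` is empty only (1) occurs, and the term with `max` is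
`≥ 0`. -/
def T_COR : Prop := ∀ ε : ℝ, 0 < ε → ∃ C : ℝ, 0 ≤ C ∧ ∀ (N R k j h y : ℕ) (A P : Finset ℕ),
  (∀ a ∈ A, a ≤ N) → (∀ p ∈ P, p.Prime ∧ y < p) → P.card = k + j → 1 ≤ h → A.card ≤ h * j →
  2 ≤ R → R ^ 4 ≤ N → R ≤ k.factorial → W y * ∏ p ∈ P, p ≤ N →
  ∃ Q : ℕ, 0 < Q ∧ Q ≤ W y * ∏ p ∈ P, p ∧
    (N : ℝ) / Q - 1 ≤ mis (A : Set ℕ) N + (A.card : ℝ) * (y + k + j) +
      max 0 (A.card * V y - k) *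
        ((N : ℝ) / Q * ((V y)⁻¹ * ∏ p ∈ P, (1 - 1 / (p : ℝ))⁻¹) / Real.log R +
          C * (N : ℝ) ^ ε * R ^ 2 / Q + Real.sqrt (C * (N : ℝ) ^ ε * N * h ^ k / k.factorial) + 2)

/-! ## Block F: choice of the parameters. `L = log N`, `κ = η/10`, `y = ⌊L^(1-κ)⌋`, `h = ⌊L^κ⌋`,
`k = ⌊(1-2η) L/log L⌋`, `j = ⌊κ L/log L⌋`, `R = ⌊N^(1/4)⌋`, `P` = the first `k + j` primes in
`(L, L^(1+κ)]`. -/

/-- PRM. PROOF. Chebyshev, `Chebyshev.pi_ge'`: `π(x) ≥ c x/log x` with `x = L^(1+κ)`, minus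
`L + 1` for the primes up to `L`. -/
def T_PRM : Prop := ∀ κ : ℝ, 0 < κ → ∀ᶠ L : ℝ in Filter.atTop,
  L ≤ (((Icc 1 ⌊L ^ (1 + κ)⌋₊).filter fun p : ℕ => p.Prime ∧ L < (p : ℝ)).card : ℝ)

/-- NA. PROOF. `h ≥ L^κ/2`, `j ≥ κ L/(2 log L)`, and `L^κ/log L → ∞`. -/
def T_NA : Prop := ∀ κ C : ℝ, 0 < κ → 0 ≤ C → ∀ᶠ L : ℝ in Filter.atTop,
  1 ≤ ⌊L ^ κ⌋₊ ∧ C * L + 2 ≤ ((⌊L ^ κ⌋₊ * ⌊κ * L / Real.log L⌋₊ : ℕ) : ℝ)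

/-- NB. The logarithm of `W y * (L^(1+κ))^(k+j)`. PROOF. `y log 4 ≤ L^(1-κ) log 4 ≤ κ L`,
`k log L ≤ (1-2η) L`, `j log L ≤ κ L`, `log k! ≥ k log k - k ≥ (1-2η-κ) L` eventually; with
`κ = η/10`: `(1+κ)(1-2η+κ) + κ ≤ 1 - 1.7η`, and `2(1 - 1.7η) + κ ≤ (1 - 2.1η) + (1 - η)`. -/
def T_NB : Prop := ∀ η : ℝ, 0 < η → η ≤ 1 / 20 → ∀ᶠ L : ℝ in Filter.atTop,
  (⌊L ^ (1 - η / 10)⌋₊ : ℝ) * Real.log 4 + (((⌊(1 - 2 * η) * L / Real.log L⌋₊ : ℕ) : ℝ) +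
    (⌊η / 10 * L / Real.log L⌋₊ : ℕ)) * ((1 + η / 10) * Real.log L) ≤ (1 - η) * L ∧
  2 * ((⌊L ^ (1 - η / 10)⌋₊ : ℝ) * Real.log 4 + (((⌊(1 - 2 * η) * L / Real.log L⌋₊ : ℕ) : ℝ) +
    (⌊η / 10 * L / Real.log L⌋₊ : ℕ)) * ((1 + η / 10) * Real.log L)) +
    (⌊(1 - 2 * η) * L / Real.log L⌋₊ : ℝ) * (η / 10 * Real.log L) ≤
      Real.log ((⌊(1 - 2 * η) * L / Real.log L⌋₊).factorial : ℝ) + (1 - η) * L ∧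
  (⌊L ^ (1 - η / 10)⌋₊ : ℝ) + (⌊(1 - 2 * η) * L / Real.log L⌋₊ : ℝ) +
    (⌊η / 10 * L / Real.log L⌋₊ : ℝ) ≤ L ∧
  L / 4 ≤ Real.log ((⌊(1 - 2 * η) * L / Real.log L⌋₊).factorial : ℝ)

/-- NC. PROOF. `(1 - 1/L)^(-m) ≤ exp (2m/L)` and `m ≤ 2L/log L`, so the exponent tends to `0`. -/
def T_NC : Prop := ∀ η : ℝ, 0 < η → ∀ᶠ L : ℝ in Filter.atTop, ∀ P : Finset ℕ,
  (∀ p ∈ P, L < (p : ℝ)) → (P.card : ℝ) ≤ 2 * L / Real.log L →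
  (∏ p ∈ P, (1 - 1 / (p : ℝ))⁻¹) ≤ 1 + η

/-- ND. PROOF (uses T_MT3). `(V y)⁻¹ ≥ (e^γ - κ') log y`, `log y ≥ (1 - η/10) log L - 1`,
`k ≥ (1-2η) L/log L - 1`; the product divided by `L` tends to
`(1-2η)(1-η/10)(e^γ - κ')`, which is larger than `e^γ (1-4η)` for small `κ'`. -/
def T_ND : Prop := ∀ η : ℝ, 0 < η → η ≤ 1 / 20 → ∀ᶠ L : ℝ in Filter.atTop,
  Real.exp Real.eulerMascheroniConstant * (1 - 4 * η) * L ≤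
    (⌊(1 - 2 * η) * L / Real.log L⌋₊ : ℝ) * (V ⌊L ^ (1 - η / 10)⌋₊)⁻¹

/-- NUM. All parameters. PROOF (uses T_PRM, T_NA, T_NB, T_NC, T_ND). `L = log N → ∞`. `P` is a
subset
with `k + j ≤ L` elements of the primes in `(L, L^(1+κ)]` (`y ≤ L`). `W y ≤ 4^y`
(`primorial_le_four_pow`), `∏_P p ≤ (L^(1+κ))^(k+j)`, `N^(1-η) = exp ((1-η) L)`;
`h^k ≤ exp (k κ log L)`; `R = ⌊N^(1/4)⌋`, `log R ≥ L/4 - 1` since `R ≥ N^(1/4)/2`,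
`R ≤ exp (L/4) ≤ k!`. -/
def T_NUM : Prop := ∀ η C : ℝ, 0 < η → η ≤ 1 / 20 → 0 ≤ C → ∃ N₀ : ℕ, ∀ N : ℕ, N₀ ≤ N →
  ∃ (R k j h y : ℕ) (P : Finset ℕ), (∀ p ∈ P, p.Prime ∧ y < p) ∧ P.card = k + j ∧ 1 ≤ h ∧
    C * Real.log N + 2 ≤ ((h * j : ℕ) : ℝ) ∧ 2 ≤ R ∧ R ^ 4 ≤ N ∧ R ≤ k.factorial ∧
    ((W y * ∏ p ∈ P, p : ℕ) : ℝ) ≤ (N : ℝ) ^ (1 - η) ∧
    ((W y * ∏ p ∈ P, p : ℕ) : ℝ) ^ 2 * (h : ℝ) ^ k ≤ k.factorial * (N : ℝ) ^ (1 - η) ∧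
    (y : ℝ) + k + j ≤ Real.log N ∧ Real.log N / 4 - 1 ≤ Real.log R ∧
    (∏ p ∈ P, (1 - 1 / (p : ℝ))⁻¹) ≤ 1 + η ∧
    Real.exp Real.eulerMascheroniConstant * (1 - 4 * η) * Real.log N ≤ k * (V y)⁻¹

/-- LIM. The last inequality. PROOF. With `X ≥ N^η`, `L = log N` the claim is
`X - 1 ≤ M + (C L + 1) L + ρ (X v/log R + E X + 2)`, where `ρ v ≤ ...`; see FIN. Here: for `c₀ > 0`,
eventually in `N`: for every `X ≥ N^η`, `1 + (C L + 1)(L + 2) + (C L + 1) K N^(-η/8) X + N^(η/2)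
≤ c₀ X`.
-/
def T_LIM : Prop := ∀ η C K c₀ : ℝ, 0 < η → 0 ≤ C → 0 ≤ K → 0 < c₀ → ∀ᶠ N : ℕ in Filter.atTop,
  ∀ X : ℝ, (N : ℝ) ^ η ≤ X →
    1 + (C * Real.log N + 1) * (Real.log N + 2) +
      (C * Real.log N + 1) * (K * (N : ℝ) ^ (-(η / 8)) * X) + (N : ℝ) ^ (η / 2) ≤ c₀ * X

/-- FIN. PROOF (uses T_COR, T_NUM, T_LIM). `C < e^γ + 1/4`; if `C < 0` the hypothesis is
impossible for
`N ≥ 2`. Choose `η ≤ 1/20` with `4 (1+η)(C - e^γ (1-4η)) ≤ 1 - 4 c₀`, `c₀ > 0`. `ε = η/4`. For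
large `N`
take the parameters of T_NUM, `A' = A ∩ [0, N]`, `|A'| ≤ C L + 1 ≤ h j`, `mis A N = mis A' N`.
T_COR:
`X = N/Q ≥ N^η`, `ρ = max 0 (|A'| V - k) ≤ |A'| ≤ C L + 1`,
`ρ V⁻¹ (1+η)/log R ≤ (1+η) max 0 (C L + 1 - e^γ (1-4η) L)/(L/4 - 1) ≤ 1 - 2 c₀` eventually;
`K N^ε R^2/Q ≤ X K N^(ε - 1/2)`; `h^k/k! ≤ N^(1-η)/Q^2` gives
`√(K N^(1+ε) h^k/k!) ≤ X √K N^(-(η-ε)/2)`, both at most `X (K + √K) N^(-η/8)`. By T_LIM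
`mis ≥ N^(η/2)`. -/
def T_FIN : Prop := ∀ C : ℝ, C < Real.exp Real.eulerMascheroniConstant + 1 / 4 →
  ∃ δ : ℝ, 0 < δ ∧ ∃ N₀ : ℕ, ∀ N : ℕ, N₀ ≤ N → ∀ A : Set ℕ, (cnt A N : ℝ) ≤ C * Real.log N →
    (N : ℝ) ^ δ ≤ mis A N

end Pool.Agent.ACP
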